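import Mathlib
import Pool.Agent.H43Z.Ex

set_option autoImplicit false

/-!
# The odd zeta values over simultaneously Liouville fields

A field `F` of real numbers is simultaneously Liouville if any finitely many elements of `F` have
simultaneous rational approximations of every order. Besides `ℚ` there are such fields of
transcendence degree continuum, and every Liouville number lies in one of them; a sequence of
scales `T n → ∞` gives the field of all the numbers which are approximable at these scales.

We show that over EVERY such field `F`, for all large `s` (with a bound which does not depend on `F`):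

* a vector space `V` of real numbers over `F` of dimension `D ≤ c log log s` (for example an
  extension field of `F` of degree `D`, or the space spanned by `D` arbitrary real numbers) does not
  contain at least `(c / D) √(s log log s / log s)` of the odd zeta values `ζ(i)`, `i ≤ s`;
* the space over `F` spanned by the odd zeta values `ζ(3), …, ζ(s)` has dimension larger than
  `c log log s`; so the odd zeta values span an infinite-dimensional space over `F`.

For `F = ℚ` the first statement is `OutsideSubspaces` of `MP_a89d6d_nt` (starting files).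

Proof. For finitely many numbers of `V` the coefficients with respect to a basis are approximated by
rational numbers with a common denominator `q` and an error `q ^ (-w)`, and the basis by Dirichlet's
theorem with the parameter `q ^ (D + 3)`. So the numbers are simultaneously approximable with the
exponent `1 / (D + 1)` by rational numbers with arbitrarily large common denominators, but by
`Pool/Agent/TH818/SA/MA2.lean` (starting files) many of the odd zeta values up to `ζ(s)` are not.
-/

namespace Pool.Agent.Results.MP_c2395a_nt.LiouvilleFieldSpans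

open Filter

/-- `ζ(i) = ∑ 1 / n ^ i` -/
noncomputable def zeta (i : ℕ) : ℝ := ∑' n : ℕ, 1 / ((n : ℝ) + 1) ^ i

/-- Any finitely many elements `x` of `F` have, for every `w`, simultaneous rational approximations
`p / q` with arbitrarily large common denominators `q` and `|q x - p| < q ^ (-w)`. -/
def SimLiouville (F : Subfield ℝ) : Prop :=
  ∀ s : Finset ℝ, (∀ x ∈ s, x ∈ F) → ∀ w q₀ : ℕ, ∃ q : ℕ, q₀ ≤ q ∧ 1 ≤ q ∧
    ∀ x ∈ s, ∃ p : ℤ, |(q : ℝ) * x - p| < 1 / (q : ℝ) ^ w

/-- `x` has, for one `A` and for all `E`, rational approximations of height at most `exp (A T n)`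
with an error of at most `exp (- E T n)`, for all large `n`. -/
def Approximable (T : ℕ → ℝ) (x : ℝ) : Prop :=
  ∃ A : ℝ, 0 ≤ A ∧ ∀ E : ℝ, ∀ᶠ n in atTop, ∃ p q : ℤ, q ≠ 0 ∧ |(p : ℝ)| ≤ Real.exp (A * T n) ∧
    |(q : ℝ)| ≤ Real.exp (A * T n) ∧ |x - p / q| ≤ Real.exp (-(E * T n))

/-- The space over `F` spanned by the `ζ(i)`, `i` odd, `3 ≤ i ≤ s`. -/
noncomputable def oddSpan (F : Subfield ℝ) (s : ℕ) : Submodule F ℝ :=
  Submodule.span F {x | ∃ i : ℕ, 3 ≤ i ∧ i ≤ s ∧ Odd i ∧ x = zeta i}

/-- **The odd zeta values over simultaneously Liouville fields.** -/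
theorem result :
    -- examples of simultaneously Liouville fields
    (∀ T : ℕ → ℝ, Tendsto T atTop atTop →
      ∃ F : Subfield ℝ, (∀ x, x ∈ F ↔ Approximable T x) ∧ SimLiouville F) ∧
    (∀ ξ : ℝ, Liouville ξ → ∃ F : Subfield ℝ, SimLiouville F ∧ ξ ∈ F) ∧
    (∃ L : IntermediateField ℚ ℝ, Algebra.trdeg ℚ L = Cardinal.continuum ∧
      SimLiouville L.toSubfield) ∧
    -- the odd zeta values outside finite-dimensional spaces
    (∃ s₀ : ℕ, ∀ s ≥ s₀, ∀ F : Subfield ℝ, SimLiouville F →
      (∀ D : ℕ, 1 ≤ D → (D : ℝ) ≤ (1 / 2000) * Real.log (Real.log s) →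
        ∀ V : Submodule F ℝ, FiniteDimensional F V → Module.finrank F V ≤ D →
        (1 / 2000) / D * Real.sqrt (s * Real.log (Real.log s) / Real.log s) ≤
          (Set.ncard {i : ℕ | 3 ≤ i ∧ i ≤ s ∧ Odd i ∧ zeta i ∉ V} : ℝ)) ∧
      (1 / 2000) * Real.log (Real.log s) < Module.finrank F (oddSpan F s)) ∧
    (∀ F : Subfield ℝ, SimLiouville F → ∀ V : Submodule F ℝ, FiniteDimensional F V →
      {i : ℕ | 3 ≤ i ∧ Odd i ∧ zeta i ∉ V}.Infinite) := by
  refine ⟨fun T hT => ⟨Pool.Agent.Q163.LE.ApField T hT, fun x => Iff.rfl,
    Pool.Agent.Q163.LE.sim_apField T hT⟩, fun ξ hξ => Pool.Agent.H43Z.liouville_mem hξ,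
    Pool.Agent.H43Z.exists_continuum, ?_, fun F hF V hV => Pool.Agent.H43Z.infinite_outside hF V hV⟩
  obtain ⟨s0, h0⟩ := Pool.Agent.H43Z.t_subF
  obtain ⟨s1, h1⟩ := Pool.Agent.H43Z.span_dim
  exact ⟨max s0 s1, fun s hs F hF => ⟨h0 s ((le_max_left _ _).trans hs) F hF,
    h1 s ((le_max_right _ _).trans hs) F hF⟩⟩

end Pool.Agent.Results.MP_c2395a_nt.LiouvilleFieldSpans
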