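import Mathlib
import Pool.Agent.Q163.LE.Meas
import Pool.Agent.H43Z.Ex
import Pool.Agent.H56Z.Meas
import Pool.Agent.Y801.Z5S.Fin
import Pool.Agent.H18ZM.Meas
import Pool.Agent.Dim7.PD.Fin
import Pool.Agent.Dim7.PD.PU
import Pool.Agent.Dim7.PD.AR
import Pool.Agent.Dim7.PD.NV
import Pool.Agent.Dim7.PD.SV
import Pool.Agent.Dim7.PD.RH
import Pool.Agent.Dim7.PD.FX

set_option autoImplicit false

/-!
# Explicit windows of odd zeta values over fields of Liouville numbers

Call a field `F` of real numbers simultaneously Liouville if any finitely many elements of `F` have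
simultaneous rational approximations of every order. Besides `ℚ` there are such fields of
transcendence degree continuum, and every Liouville number lies in one of them.

Over every simultaneously Liouville field `F`

* every window `[s + 2, 3.6 s)`, `s ≥ 3` odd, contains an odd `j` with `ζ(j) ∉ F`;
* `ζ(5) ∉ F`, and one of `ζ(7), ζ(9), ζ(11), ζ(13)` is not in `F`;
* a vector space over `F` which contains `1, ζ(3), ζ(5), ζ(7)` has dimension at least three; so
  `ζ(3), ζ(5), ζ(7)` do not lie in a quadratic extension of `F`.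

The proofs combine the measures of `WindowMeasure` (helper56), `ZetaFiveMeasureSharp`,
`MeasureZeta7To13` (helper18) and `PlaneDistanceZeta7` with the passage from `ℚ` to `F` in
`Pool/Agent/Q163/LE/Meas.lean` (starting files).
-/

namespace Pool.Agent.Results.MP_c2395a_nt.LiouvilleWindows

/-- `ζ(i) = ∑ 1 / n ^ i` -/
noncomputable def zeta (i : ℕ) : ℝ := ∑' n : ℕ, 1 / ((n : ℝ) + 1) ^ i

/-- Any finitely many elements `x` of `F` have, for every `w`, simultaneous rational approximations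
`p / q` with arbitrarily large common denominators `q` and `|q x - p| < q ^ (-w)`. -/
def SimLiouville (F : Subfield ℝ) : Prop :=
  ∀ s : Finset ℝ, (∀ x ∈ s, x ∈ F) → ∀ w q₀ : ℕ, ∃ q : ℕ, q₀ ≤ q ∧ 1 ≤ q ∧
    ∀ x ∈ s, ∃ p : ℤ, |(q : ℝ) * x - p| < 1 / (q : ℝ) ^ w

/-- **Explicit windows of odd zeta values over simultaneously Liouville fields.** -/
theorem result :
    (∃ L : IntermediateField ℚ ℝ, Algebra.trdeg ℚ L = Cardinal.continuum ∧
      SimLiouville L.toSubfield) ∧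
    (∀ ξ : ℝ, Liouville ξ → ∃ F : Subfield ℝ, SimLiouville F ∧ ξ ∈ F) ∧
    ∀ F : Subfield ℝ, SimLiouville F →
      (∀ s : ℕ, Odd s → 3 ≤ s → ∃ j : ℕ, Odd j ∧ s + 2 ≤ j ∧ 5 * j < 18 * s ∧ zeta j ∉ F) ∧
      zeta 5 ∉ F ∧
      (zeta 7 ∉ F ∨ zeta 9 ∉ F ∨ zeta 11 ∉ F ∨ zeta 13 ∉ F) ∧
      (∀ V : Submodule F ℝ, FiniteDimensional F V → (1 : ℝ) ∈ V → zeta 3 ∈ V → zeta 5 ∈ V →
        zeta 7 ∈ V → 3 ≤ Module.finrank F V) := by
  refine ⟨Pool.Agent.H43Z.exists_continuum, fun ξ hξ => Pool.Agent.H43Z.liouville_mem hξ,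
    fun F hF => ⟨fun s hs hs3 => ?_, ?_, ?_, fun V hV h1 h3 h5 h7 => ?_⟩⟩
  · obtain ⟨c, hc, h⟩ := Pool.Agent.H56Z.window s hs hs3
    obtain ⟨j, hj, hjF⟩ := Pool.Agent.Q163.LE.one_outside hF
      ((Finset.range (18 * s)).filter (fun j => Odd j ∧ s + 2 ≤ j ∧ 5 * j < 18 * s)) zeta 400 c hc
      (fun p q hq => by
        obtain ⟨j, hj1, hj2, hj3, hj⟩ := h p q hq
        exact ⟨j, Finset.mem_filter.2 ⟨Finset.mem_range.2 (by omega), hj1, hj2, hj3⟩, hj⟩)
    obtain ⟨_, hj1, hj2, hj3⟩ := Finset.mem_filter.1 hj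
    exact ⟨j, hj1, hj2, hj3, hjF⟩
  · obtain ⟨c, hc, h⟩ := Pool.Agent.Y801.Z5S.measure83
    obtain ⟨j, hj, hjF⟩ := Pool.Agent.Q163.LE.one_outside hF {5} zeta 83 c hc
      (fun p q hq => ⟨5, Finset.mem_singleton_self _, h (p 5) q hq⟩)
    rw [Finset.mem_singleton] at hj
    rwa [hj] at hjF
  · obtain ⟨c, hc, h⟩ := Pool.Agent.H18ZM.measure
    obtain ⟨j, hj, hjF⟩ := Pool.Agent.Q163.LE.one_outside hF {7, 9, 11, 13} zeta 2229 c hc
      (fun p q hq => h p q hq)
    simp only [Finset.mem_insert, Finset.mem_singleton] at hj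
    rcases hj with rfl | rfl | rfl | rfl
    · exact Or.inl hjF
    · exact Or.inr (Or.inl hjF)
    · exact Or.inr (Or.inr (Or.inl hjF))
    · exact Or.inr (Or.inr (Or.inr hjF))
  · obtain ⟨c, hc, h⟩ := Pool.Agent.Dim7.PD.main_of Pool.Agent.Dim7.PD.P_unif
      (Pool.Agent.Dim7.PD.AR_of Pool.Agent.Dim7.PD.FN_in Pool.Agent.Dim7.PD.rho_le'
        Pool.Agent.Dim7.PD.BL_le' Pool.Agent.Dim7.PD.sv_add' Pool.Agent.Dim7.PD.sv_entry')
      Pool.Agent.Dim7.PD.nonv
    refine Pool.Agent.Q163.LE.plane hF {3, 5, 7} zeta 1070 c hc ?_ V h1 ?_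
    · intro q a b θ H hq hqH hb
      exact h q a b θ H hq hqH hb
    · intro i hi
      simp only [Finset.mem_insert, Finset.mem_singleton] at hi
      rcases hi with rfl | rfl | rfl
      · exact h3
      · exact h5
      · exact h7

end Pool.Agent.Results.MP_c2395a_nt.LiouvilleWindows
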