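import Pool.Agent.H18ZM.Meas

/-!
# A simultaneous measure for the four numbers `ζ(7), ζ(9), ζ(11), ζ(13)`

Rational numbers with a common denominator `q` cannot approximate all the four numbers with an error below
`c q^(-2229)`. In particular one of the four numbers is irrational.

The proof (see `Pool/Agent/H18Z/`, `Pool/Agent/H18ZM/`, `Pool/Agent/TH900/OM/`, `Pool/Agent/H343Z/` and
`Pool/Agent/H336R2/HD/`) compares, for Hankel determinants of linear forms in `1, ζ(7), ζ(9), ζ(11), ζ(13)`
(fourth derivatives of a well-poised rational function with poles of order ten), with the `ζ(j)` replaced by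
the rational numbers `a j / q`, an archimedean bound on a slanted contour, with explicit polynomials, with
`p`-adic bounds for all primes `p`; the product formula would fail for a suitable prime parameter `n`
(with `n^7 ∤ q`, between `2.32 log q` and `3.47 log q`), for which the determinant does not vanish.
-/

namespace Pool.Agent.Results.MP_c2395a_nt.MeasureZeta7To13

/-- There is `c > 0` such that for all integers `a j` and `q ≥ 1` there is an odd `j`, `7 ≤ j ≤ 13`, with
`|ζ(j) - a j / q| ≥ c q^(-2229)`, where `ζ(j) = ∑ 1/(n+1)^j`. -/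
theorem result : ∃ c : ℝ, 0 < c ∧ ∀ (a : ℕ → ℤ) (q : ℕ), 0 < q → ∃ j : ℕ, Odd j ∧ 7 ≤ j ∧ j ≤ 13 ∧
    c / (q : ℝ) ^ 2229 ≤ |(∑' n : ℕ, 1 / ((n : ℝ) + 1) ^ j) - (a j : ℝ) / q| := by
  obtain ⟨c, hc, h⟩ := Pool.Agent.H18ZM.measure
  refine ⟨c, hc, fun a q hq => ?_⟩
  obtain ⟨j, hj, h1⟩ := h a q hq
  refine ⟨j, ?_, ?_, ?_, h1⟩
  · fin_cases hj <;> decide
  · fin_cases hj <;> decide
  · fin_cases hj <;> decide

end Pool.Agent.Results.MP_c2395a_nt.MeasureZeta7To13
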