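import Pool.Agent.H56Z.Meas
import Pool.Agent.H56Z.NR

/-!
# Windows of odd zeta values: simultaneous irrationality measures

For every odd `s ≥ 3` the odd zeta values `ζ(j)`, `s + 2 ≤ j < 3.6 s`, have a simultaneous irrationality measure with an
exponent that does not depend on `s`: they are not all within `c / q ^ 400` of rational numbers with the common
denominator `q`. As a consequence the near linear relations between `1`, these values and any further real numbers
have corank at least two.

Method. The Hankel determinants of `Pool/Agent/Results/MP_c2395a_nt/WindowsRatio36.lean` are evaluated at the rational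
point `a_j / q` in place of `ζ(j)`, with the parameter `n` tied to `q`. The perturbation is bounded by moving the
coefficient functionals to the nodes by Hermite interpolation (`Pool/Agent/H56Z/Interp.lean`, `Bound.lean`,
`Pert.lean`), the determinant does not vanish when a prime `2 n + 1 ≡ 11 mod 20` does not divide `q` to a high power
(`NVp.lean`), and the numerical margin is that of `NUMp.lean`.
-/

namespace Pool.Agent.Results.MP_c2395a_nt.WindowMeasure

open Pool.Agent.H56Z

/-- the window: the odd `j` with `s + 2 ≤ j < 3.6 s` -/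
def win (s : ℕ) : Finset ℕ := (Finset.range (4 * s)).filter (fun j => Odd j ∧ s + 2 ≤ j ∧ 5 * j < 18 * s)

lemma mem_win (s j : ℕ) : j ∈ win s ↔ Odd j ∧ s + 2 ≤ j ∧ 5 * j < 18 * s := by
  rw [win, Finset.mem_filter, Finset.mem_range]
  constructor
  · rintro ⟨_, h⟩
    exact h
  · intro h
    exact ⟨by omega, h⟩

/-- **Windows of odd zeta values, quantitatively.** Let `s ≥ 3` be odd.
(1) There is `c > 0` such that for every `q ≥ 1` and all integers `a_j` some odd `j` with `s + 2 ≤ j`, `5 j < 18 s`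
satisfies `|ζ(j) - a_j / q| ≥ c / q ^ 400`.
(2) Let `W` be the number of these `j`. For every `r` there is `c > 0` such that for all real numbers
`η_1, …, η_r`, every `X ≥ 1` and any `W + r` linearly independent integer vectors with entries of absolute value at
most `X`, one of the `W + r` linear forms in `1`, the `ζ(j)` and the `η_m` with these coefficients is at least
`c / X ^ (401 (W + r) + 1)` in absolute value. -/
theorem result (s : ℕ) (hs : Odd s) (hs3 : 3 ≤ s) :
    (∃ c : ℝ, 0 < c ∧ ∀ (a : ℕ → ℤ) (q : ℕ), 0 < q →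
      ∃ j, Odd j ∧ s + 2 ≤ j ∧ 5 * j < 18 * s ∧
        c / (q : ℝ) ^ 400 ≤ |(∑' n : ℕ, 1 / ((n : ℝ) + 1) ^ j) - (a j : ℝ) / q|) ∧
    (∀ r : ℕ, ∃ c : ℝ, 0 < c ∧ ∀ (η : Fin r → ℝ) (X : ℝ), 1 ≤ X →
      ∀ v : win s ⊕ Fin r → Option (win s ⊕ Fin r) → ℤ, LinearIndependent ℤ v →
      (∀ i x, |((v i x : ℤ) : ℝ)| ≤ X) →
      ∃ i, c / X ^ (401 * ((win s).card + r) + 1) ≤
        |(v i none : ℝ) + (∑ j : win s, (v i (some (Sum.inl j)) : ℝ) * ∑' n : ℕ, 1 / ((n : ℝ) + 1) ^ (j : ℕ)) +
          ∑ m : Fin r, (v i (some (Sum.inr m)) : ℝ) * η m|) := by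
  have h1 := window s hs hs3
  refine ⟨h1, fun r => ?_⟩
  obtain ⟨c, hc, h⟩ := h1
  have hne : s + 2 ∈ win s := by
    rw [mem_win]
    refine ⟨?_, le_refl _, ?_⟩
    · rcases hs with ⟨k, rfl⟩
      exact ⟨k + 1, by ring⟩
    · omega
  have hcard : Fintype.card (win s ⊕ Fin r) = (win s).card + r := by
    rw [Fintype.card_sum, Fintype.card_coe, Fintype.card_fin]
  obtain ⟨c', hc', h'⟩ := near (τ := win s ⊕ Fin r) (win s) Sum.inl
    (fun j => ∑' n : ℕ, 1 / ((n : ℝ) + 1) ^ (j : ℕ)) 400 (by norm_num) c hc (by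
      intro a q hq
      obtain ⟨j, hj1, hj2, hj3, hj⟩ := h (fun j => if hj : j ∈ win s then a ⟨j, hj⟩ else 0) q hq
      have hm : j ∈ win s := (mem_win s j).2 ⟨hj1, hj2, hj3⟩
      refine ⟨⟨j, hm⟩, ?_⟩
      simp only [dif_pos hm] at hj
      exact hj) (by
      rw [hcard]
      have := Finset.card_pos.2 ⟨_, hne⟩
      omega)
  refine ⟨c', hc', fun η X hX v hv hvX => ?_⟩
  obtain ⟨i, hi⟩ := h' (fun x => match x with
    | none => 1
    | some (Sum.inl j) => ∑' n : ℕ, 1 / ((n : ℝ) + 1) ^ (j : ℕ)
    | some (Sum.inr m) => η m) rfl (fun _ => rfl) X hX v hv hvX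
  refine ⟨i, ?_⟩
  rw [hcard] at hi
  refine hi.trans (le_of_eq ?_)
  congr 1
  rw [Fintype.sum_option, Fintype.sum_sum_type]
  simp only [mul_one]
  ring

end Pool.Agent.Results.MP_c2395a_nt.WindowMeasure
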